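import Mathlib

open MeasureTheory Filter Topology
open scoped ENNReal

namespace Pool.Agent.Lib.MP_fbfbfd_pr

/-- The box `V_k = [-2^k, 2^k)^d` in `ℤ^d`. -/
def box (d k : ℕ) : Set (Fin d → ℤ) := {x | ∀ i, -2 ^ k ≤ x i ∧ x i < 2 ^ k}

/-- The shells `S_0 = V_0`, `S_{k+1} = V_{k+1} \ V_k`. -/
def shell (d : ℕ) : ℕ → Set (Fin d → ℤ)
  | 0 => box d 0
  | k + 1 => box d (k + 1) \ box d k

/-- The dyadic cube of sidelength `2^l` with index `j`. -/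
def cube {d : ℕ} (l : ℕ) (j : Fin d → ℤ) : Set (Fin d → ℤ) :=
  {x | ∀ i, j i * 2 ^ l ≤ x i ∧ x i < (j i + 1) * 2 ^ l}

/-- `N_α(A, S_k)`. -/
noncomputable def content {d : ℕ} (α : ℝ) (A : Set (Fin d → ℤ)) (k : ℕ) : ℝ :=
  sInf {s : ℝ | ∃ (m : ℕ) (l : Fin m → ℕ) (j : Fin m → Fin d → ℤ),
    A ∩ shell d k ⊆ ⋃ i, cube (l i) (j i) ∧ s = ∑ i, (2 : ℝ) ^ (α * ((l i : ℝ) - k - 1))}

/-- Macroscopic lower Hausdorff dimension. -/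
noncomputable def lowerDimH {d : ℕ} (A : Set (Fin d → ℤ)) : EReal :=
  ⨅ α ∈ {α : ℝ | 0 < α ∧ Tendsto (content α A) atTop (𝓝 0)}, (α : EReal)

/-- Macroscopic lower Minkowski dimension. -/
noncomputable def lowerDimM {d : ℕ} (A : Set (Fin d → ℤ)) : EReal :=
  liminf (fun n : ℕ => ((Real.logb 2 (A ∩ box d n).ncard / n : ℝ) : EReal)) atTop

/-- The walk `X_n = ξ_0 + ⋯ + ξ_{n-1}` (so `X_0 = 0`). -/
def walk {Ω : Type} {d : ℕ} (ξ : ℕ → Ω → Fin d → ℤ) (n : ℕ) (ω : Ω) : Fin d → ℤ :=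
  ∑ i ∈ Finset.range n, ξ i ω

/-- The occupation measure `U(A) = ∑_n P{X_n ∈ A}`; `g(0,x) = U({x})`. -/
noncomputable def occ {Ω : Type} [MeasurableSpace Ω] (P : Measure Ω) {d : ℕ}
    (ξ : ℕ → Ω → Fin d → ℤ) (A : Set (Fin d → ℤ)) : ℝ≥0∞ :=
  ∑' n, P {ω | walk ξ n ω ∈ A}

/-- The index `λ_X`. -/
noncomputable def index {Ω : Type} [MeasurableSpace Ω] (P : Measure Ω) {d : ℕ}
    (ξ : ℕ → Ω → Fin d → ℤ) : EReal :=
  liminf (fun n : ℕ => ((Real.logb 2 (occ P ξ (box d n)).toReal / n : ℝ) : EReal)) atTop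

end Pool.Agent.Lib.MP_fbfbfd_pr
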