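import Pool.Agent.Lib.MP_fbfbfd_pr.Defs

open MeasureTheory Filter Topology Set
open scoped ENNReal

namespace Pool.Agent.Lib.MP_fbfbfd_pr

/-- a point on the diagonal -/
def dg (d : ℕ) (t : ℤ) : Fin d → ℤ := fun _ => t

lemma dg_mem_box {d : ℕ} (hd : 1 ≤ d) (k : ℕ) (t : ℤ) :
    dg d t ∈ box d k ↔ -2 ^ k ≤ t ∧ t < 2 ^ k :=
  ⟨fun h => h ⟨0, hd⟩, fun h _ => h⟩

lemma shell_subset (d k : ℕ) : shell d k ⊆ box d k := by
  cases k with
  | zero => exact subset_rfl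
  | succ k => exact sdiff_subset

lemma content_nonneg {d : ℕ} (α : ℝ) (A : Set (Fin d → ℤ)) (k : ℕ) : 0 ≤ content α A k := by
  apply Real.sInf_nonneg
  rintro s ⟨m, l, j, -, rfl⟩
  exact Finset.sum_nonneg fun i _ => by positivity

variable {d : ℕ} {S : ℕ → ℤ}

lemma unit_cover (hd : 1 ≤ d) (h0 : ∀ i, 0 ≤ S i) (k : ℕ) :
    range (fun i => dg d (S i)) ∩ shell d k ⊆
      ⋃ i : Fin (2 ^ k), cube 0 (dg d ((i : ℕ) : ℤ)) := by
  rintro x ⟨⟨i, rfl⟩, hx⟩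
  have h1 := (dg_mem_box hd k _).mp (shell_subset d k hx)
  have h2 := h0 i
  have h3 : (S i).toNat < 2 ^ k := by
    have : (((S i).toNat : ℕ) : ℤ) < ((2 ^ k : ℕ) : ℤ) := by
      rw [Int.toNat_of_nonneg h2]; push_cast; exact h1.2
    exact_mod_cast this
  refine mem_iUnion.mpr ⟨⟨(S i).toNat, h3⟩, fun c => ?_⟩
  simp [dg, Int.toNat_of_nonneg h2]

lemma content_le (hd : 1 ≤ d) (h0 : ∀ i, 0 ≤ S i) (α : ℝ) (k : ℕ) :
    content α (range fun i => dg d (S i)) k ≤ 2 ^ k * (2 : ℝ) ^ (α * (-(k : ℝ) - 1)) := by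
  apply csInf_le
  · refine ⟨0, ?_⟩
    rintro s ⟨m, l, j, -, rfl⟩
    exact Finset.sum_nonneg fun i _ => by positivity
  · refine ⟨2 ^ k, fun _ => 0, fun i => dg d ((i : ℕ) : ℤ), unit_cover hd h0 k, ?_⟩
    simp

lemma content_tendsto (hd : 1 ≤ d) (h0 : ∀ i, 0 ≤ S i) {α : ℝ} (hα : 1 < α) :
    Tendsto (content α (range fun i => dg d (S i))) atTop (𝓝 0) := by
  have hr : (2 : ℝ) ^ (1 - α) < 1 := Real.rpow_lt_one_of_one_lt_of_neg (by norm_num) (by linarith)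
  have ht := tendsto_pow_atTop_nhds_zero_of_lt_one (by positivity) hr
  refine squeeze_zero (content_nonneg α _) (fun k => (content_le hd h0 α k).trans ?_) ht
  rw [← Real.rpow_natCast, ← Real.rpow_add (by norm_num), ← Real.rpow_natCast,
    ← Real.rpow_mul (by norm_num)]
  apply Real.rpow_le_rpow_of_exponent_le (by norm_num)
  nlinarith

lemma le_S (hS0 : S 0 = 0) (hinc : ∀ i, S i + 1 ≤ S (i + 1)) (i : ℕ) : (i : ℤ) ≤ S i := by
  induction i with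
  | zero => simp [hS0]
  | succ i ih => have := hinc i; push_cast; linarith

lemma dense_S (hS0 : S 0 = 0) (hinc : ∀ i, S i + 1 ≤ S (i + 1)) {T : ℕ} {M : ℤ}
    (hM : ∀ i < T, S (i + 1) ≤ S i + M) {y : ℤ} (hy : 0 < y) (hyT : y ≤ T) :
    ∃ i, y ≤ S i ∧ S i < y + M := by
  have hex : ∃ i, y ≤ S i := ⟨T, hyT.trans (le_S hS0 hinc T)⟩
  have h1 := Nat.find_spec hex
  have h2 : Nat.find hex ≤ T := Nat.find_min' hex (hyT.trans (le_S hS0 hinc T))
  rcases h : Nat.find hex with _ | i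
  · rw [h, hS0] at h1; linarith
  · have h3 := Nat.find_min hex (m := i) (by omega)
    rw [h] at h1 h2
    exact ⟨i + 1, h1, by have := hM i (by omega); linarith⟩

lemma content_ge (hd : 1 ≤ d) (hS0 : S 0 = 0) (hinc : ∀ i, S i + 1 ≤ S (i + 1)) {k m : ℕ}
    (hM : ∀ i < 2 ^ k, S (i + 1) ≤ S i + 2 ^ m) (hmk : m + 2 ≤ k) {α : ℝ} (hα0 : 0 < α)
    (hα1 : α ≤ 1) (hm : (m : ℝ) ≤ (1 - α) * (k + 1)) :
    1 / 16 ≤ content α (range fun i => dg d (S i)) k := by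
  have h0 : ∀ i, 0 ≤ S i := fun i => (Int.natCast_nonneg i).trans (le_S hS0 hinc i)
  apply le_csInf
  · exact ⟨_, 2 ^ k, fun _ => 0, fun i => dg d ((i : ℕ) : ℤ), unit_cover hd h0 k, rfl⟩
  rintro s ⟨r, l, j, hcov, rfl⟩
  by_cases hbig : ∃ c, k + 1 < l c
  · obtain ⟨c, hc⟩ := hbig
    have h1 : (1 : ℝ) ≤ (2 : ℝ) ^ (α * ((l c : ℝ) - k - 1)) := by
      apply Real.one_le_rpow (by norm_num)
      have : ((k + 1 : ℕ) : ℝ) ≤ l c := by exact_mod_cast hc.le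
      push_cast at this
      exact mul_nonneg hα0.le (by linarith)
    have h2 := Finset.single_le_sum (f := fun i => (2 : ℝ) ^ (α * ((l i : ℝ) - k - 1)))
      (fun i _ => by positivity) (Finset.mem_univ c)
    linarith
  push Not at hbig
  obtain ⟨k, rfl⟩ : ∃ k', k = k' + 2 := ⟨k - 2, by omega⟩
  have hmk' : (2 : ℤ) ^ m ≤ 2 ^ k := pow_le_pow_right₀ (by norm_num) (by omega)
  have hk : (0 : ℤ) < 2 ^ k := by positivity
  have e1 : (2 : ℤ) ^ (k + 1) = 2 * 2 ^ k := by ring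
  have e2 : (2 : ℤ) ^ (k + 2) = 4 * 2 ^ k := by ring
  have hsub : Finset.Ico ((2 : ℤ) * 2 ^ k) (3 * 2 ^ k) ⊆ Finset.univ.biUnion fun c : Fin r =>
      Finset.Ico (j c ⟨0, hd⟩ * 2 ^ l c - 2 ^ m) ((j c ⟨0, hd⟩ + 1) * 2 ^ l c) := by
    intro y hy
    rw [Finset.mem_Ico] at hy
    obtain ⟨i, hi1, hi2⟩ := dense_S hS0 hinc hM (y := y) (by linarith [hy.1])
      (by push_cast; linarith [hy.2])
    have hmem : dg d (S i) ∈ shell d (k + 2) := by
      refine ⟨(dg_mem_box hd _ _).mpr ⟨by linarith [h0 i], by linarith [hy.2]⟩, fun h => ?_⟩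
      have := ((dg_mem_box hd _ _).mp h).2
      linarith [hy.1]
    obtain ⟨c, hc⟩ := mem_iUnion.mp (hcov ⟨⟨i, rfl⟩, hmem⟩)
    have := hc ⟨0, hd⟩
    simp only [dg] at this
    refine Finset.mem_biUnion.mpr ⟨c, Finset.mem_univ _, Finset.mem_Ico.mpr ⟨?_, ?_⟩⟩ <;>
      linarith [this.1, this.2]
  have hcard := (Finset.card_le_card hsub).trans Finset.card_biUnion_le
  have hc2 : (2 : ℝ) ^ k ≤ ∑ c : Fin r, ((2 : ℝ) ^ l c + 2 ^ m) := by
    have h1 : (Finset.Ico ((2 : ℤ) * 2 ^ k) (3 * 2 ^ k)).card = 2 ^ k := by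
      rw [Int.card_Ico, show (3 : ℤ) * 2 ^ k - 2 * 2 ^ k = ((2 ^ k : ℕ) : ℤ) by push_cast; ring,
        Int.toNat_natCast]
    have h2 : ∀ c : Fin r, (Finset.Ico (j c ⟨0, hd⟩ * 2 ^ l c - 2 ^ m)
        ((j c ⟨0, hd⟩ + 1) * 2 ^ l c)).card = 2 ^ l c + 2 ^ m := by
      intro c
      rw [Int.card_Ico, show (j c ⟨0, hd⟩ + 1) * 2 ^ l c - (j c ⟨0, hd⟩ * 2 ^ l c - 2 ^ m) =
        ((2 ^ l c + 2 ^ m : ℕ) : ℤ) by push_cast; ring, Int.toNat_natCast]
    rw [h1] at hcard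
    simp only [h2] at hcard
    exact_mod_cast hcard
  have hterm : ∀ c : Fin r, (2 : ℝ) ^ l c + 2 ^ m ≤
      16 * 2 ^ k * (2 : ℝ) ^ (α * ((l c : ℝ) - ((k + 2 : ℕ) : ℝ) - 1)) := by
    intro c
    have hl : (l c : ℝ) ≤ ((k + 2 + 1 : ℕ) : ℝ) := by exact_mod_cast hbig c
    have hl0 : (0 : ℝ) ≤ l c := Nat.cast_nonneg _
    have e : (8 : ℝ) * 2 ^ k * (2 : ℝ) ^ (α * ((l c : ℝ) - ((k + 2 : ℕ) : ℝ) - 1)) =
        (2 : ℝ) ^ (((k + 3 : ℕ) : ℝ) + α * ((l c : ℝ) - ((k + 2 : ℕ) : ℝ) - 1)) := by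
      rw [Real.rpow_add (by norm_num), Real.rpow_natCast]; ring
    have t1 : (2 : ℝ) ^ l c ≤ 8 * 2 ^ k * (2 : ℝ) ^ (α * ((l c : ℝ) - ((k + 2 : ℕ) : ℝ) - 1)) := by
      rw [e, ← Real.rpow_natCast]
      apply Real.rpow_le_rpow_of_exponent_le (by norm_num)
      push_cast at hl ⊢
      nlinarith
    have t2 : (2 : ℝ) ^ m ≤ 8 * 2 ^ k * (2 : ℝ) ^ (α * ((l c : ℝ) - ((k + 2 : ℕ) : ℝ) - 1)) := by
      rw [e, ← Real.rpow_natCast]
      apply Real.rpow_le_rpow_of_exponent_le (by norm_num)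
      push_cast at hm ⊢
      nlinarith
    linarith
  have h3 := hc2.trans (Finset.sum_le_sum fun c _ => hterm c)
  rw [← Finset.mul_sum] at h3
  have hk' : (0 : ℝ) < 2 ^ k := by positivity
  by_contra hcon
  push Not at hcon
  nlinarith

lemma ncard_le (hd : 1 ≤ d) (hinc : ∀ i, S i + 1 ≤ S (i + 1)) (h0 : ∀ i, 0 ≤ S i) {n N i₀ : ℕ}
    (hi : i₀ < N) (hj : S i₀ + 2 ^ n ≤ S (i₀ + 1)) :
    (range (fun i => dg d (S i)) ∩ box d n).ncard ≤ N := by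
  have hmono : Monotone S := monotone_nat_of_le_succ fun i => by linarith [hinc i]
  have hsub : range (fun i => dg d (S i)) ∩ box d n ⊆
      ((Finset.range N).image fun i => dg d (S i) : Finset _) := by
    rintro x ⟨⟨i, rfl⟩, hx⟩
    have h1 := ((dg_mem_box hd n _).mp hx).2
    simp only [Finset.coe_image, Finset.coe_range, mem_image, mem_Iio]
    refine ⟨i, ?_, rfl⟩
    by_contra hcon
    have := hmono (show i₀ + 1 ≤ i by omega)
    linarith [h0 i₀]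
  refine (ncard_le_ncard hsub (Finset.finite_toSet _)).trans ?_
  rw [ncard_coe_finset]
  exact Finset.card_image_le.trans (by simp)

lemma liminf_eq_zero {u : ℕ → ℝ} (h0 : ∀ n, 0 ≤ u n)
    (h : ∀ ε : ℝ, 0 < ε → ∃ᶠ n in atTop, u n ≤ ε) :
    liminf (fun n => ((u n : ℝ) : EReal)) atTop = 0 := by
  apply le_antisymm
  · apply le_of_forall_gt
    intro c hc
    obtain ⟨ε, h1, h2⟩ := EReal.lt_iff_exists_real_btwn.mp hc
    refine lt_of_le_of_lt (liminf_le_of_frequently_le' ?_) h2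
    exact (h ε (by exact_mod_cast h1)).mono fun n hn => by exact_mod_cast hn
  · exact le_liminf_of_le (h := Eventually.of_forall fun n => by exact_mod_cast h0 n)

lemma lowerDimH_eq_one {A : Set (Fin d → ℤ)}
    (h1 : ∀ α : ℝ, 1 < α → Tendsto (content α A) atTop (𝓝 0))
    (h2 : ∀ α : ℝ, 0 < α → α < 1 → ∃ᶠ k in atTop, 1 / 16 ≤ content α A k) :
    lowerDimH A = 1 := by
  apply le_antisymm
  · apply le_of_forall_gt
    intro c hc
    obtain ⟨a, ha1, ha2⟩ := EReal.lt_iff_exists_real_btwn.mp hc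
    have ha : (1 : ℝ) < a := by exact_mod_cast ha1
    refine lt_of_le_of_lt ?_ ha2
    exact iInf₂_le (f := fun (α : ℝ) (_ : α ∈ {α : ℝ | 0 < α ∧
      Tendsto (content α A) atTop (𝓝 0)}) => (α : EReal)) a ⟨by linarith, h1 a ha⟩
  · refine le_iInf₂ fun α hα => ?_
    by_contra hcon
    have hlt : α < 1 := by
      have := not_le.mp hcon
      exact_mod_cast this
    have h3 := hα.2.eventually (gt_mem_nhds (show (0 : ℝ) < 1 / 16 by norm_num))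
    obtain ⟨k, hk1, hk2⟩ := ((h2 α hα.1 hlt).and_eventually h3).exists
    linarith

end Pool.Agent.Lib.MP_fbfbfd_pr
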