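import Pool.Agent.Lib.MP_fbfbfd_pr.Det

open MeasureTheory ProbabilityTheory Filter Topology Set
open scoped ENNReal

namespace Pool.Agent.Lib.MP_fbfbfd_pr

/-- success probability one half -/
noncomputable def half : unitInterval := ⟨1 / 2, by norm_num, by norm_num⟩

lemma half_ne : half ≠ 0 := by
  intro h
  have : (half : ℝ) = 0 := by rw [h]; rfl
  norm_num [half] at this

/-- geometric law -/
noncomputable def geo : Measure ℕ := geometricMeasure half

instance : IsProbabilityMeasure geo := isProbabilityMeasure_geometricMeasure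

lemma geo_single (n : ℕ) : geo {n} = 2⁻¹ ^ (n + 1) := by
  rw [geo, geometricMeasure_singleton half_ne]
  have : ((1 : ℝ) - half) ^ n * half = 2⁻¹ ^ (n + 1) := by
    simp only [half]; norm_num [pow_succ]
  rw [this, ENNReal.ofReal_pow (by norm_num), ENNReal.ofReal_inv_of_pos (by norm_num)]
  simp

lemma geo_Ici (t : ℕ) : geo (Ici t) = 2⁻¹ ^ t := by
  induction t with
  | zero => simp
  | succ t ih =>
    have h1 : Ici t = Ici (t + 1) ∪ {t} := by
      ext x; simp only [mem_Ici, mem_union, mem_singleton_iff]; omega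
    rw [h1, measure_union (by simp) (measurableSet_singleton t), geo_single] at ih
    have h2 : (2⁻¹ : ℝ≥0∞) ^ t = 2⁻¹ ^ (t + 1) + 2⁻¹ ^ (t + 1) := by
      rw [pow_succ, ← mul_add, ENNReal.inv_two_add_inv_two, mul_one]
    rw [h2] at ih
    exact (ENNReal.add_left_inj (by simp)).mp ih

lemma geo_Iio (t : ℕ) : geo (Iio t) = 1 - 2⁻¹ ^ t := by
  rw [← compl_Ici, prob_compl_eq_one_sub measurableSet_Ici, geo_Ici]

/-- the scales -/
def tt (j : ℕ) : ℕ := 2 ^ 2 ^ j
/-- logarithm of the jump sizes -/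
def mm (j : ℕ) : ℕ := j * tt j
/-- the jump attached to a value of the geometric variable -/
def jump (g : ℕ) : ℤ := 2 ^ mm (Nat.log 2 (Nat.log 2 g))

lemma tt_pos (j : ℕ) : 0 < tt j := by unfold tt; positivity

lemma tt_mono : Monotone tt := fun _ _ h =>
  Nat.pow_le_pow_right (by norm_num) (Nat.pow_le_pow_right (by norm_num) h)

lemma mm_mono : Monotone mm := fun _ _ h => Nat.mul_le_mul h (tt_mono h)

lemma tt_succ (j : ℕ) : tt (j + 1) = tt j * tt j := by
  unfold tt; rw [pow_succ, mul_two, pow_add]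

lemma sq_le_tt (j : ℕ) : j * j ≤ tt j := by
  induction j with
  | zero => simp
  | succ j ih =>
    rw [tt_succ]
    have h1 : j < 2 ^ j := Nat.lt_two_pow_self
    have h2 : 2 ^ j < tt j := Nat.lt_two_pow_self
    exact Nat.mul_le_mul (by omega) (by omega)

lemma le_tt (j : ℕ) : j ≤ tt j := by
  have h1 : j < 2 ^ j := Nat.lt_two_pow_self
  have h2 : 2 ^ j < tt j := Nat.lt_two_pow_self
  omega

lemma one_le_jump (g : ℕ) : 1 ≤ jump g := one_le_pow₀ (by norm_num)

lemma jump_ge {j g : ℕ} (h : tt j ≤ g) : 2 ^ mm j ≤ jump g := by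
  apply pow_le_pow_right₀ (by norm_num) (mm_mono _)
  exact Nat.le_log_of_pow_le (by norm_num) (Nat.le_log_of_pow_le (by norm_num) h)

lemma jump_le {j g : ℕ} (h : g < tt (j + 1)) : jump g ≤ 2 ^ mm j := by
  apply pow_le_pow_right₀ (by norm_num) (mm_mono _)
  have h1 : Nat.log 2 g < 2 ^ (j + 1) := Nat.log_lt_of_lt_pow' (by positivity) h
  have h2 : Nat.log 2 (Nat.log 2 g) < j + 1 := Nat.log_lt_of_lt_pow' (by omega) h1
  omega

/-- the underlying probability -/
noncomputable def PP : Measure (ℕ → ℕ) := Measure.infinitePi fun _ => geo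

instance : IsProbabilityMeasure PP := by unfold PP; infer_instance

/-- the steps -/
def step (d : ℕ) (i : ℕ) (ω : ℕ → ℕ) : Fin d → ℤ := dg d (jump (ω i))

/-- the one dimensional walk -/
def SS (ω : ℕ → ℕ) (n : ℕ) : ℤ := ∑ i ∈ Finset.range n, jump (ω i)

lemma SS_zero (ω : ℕ → ℕ) : SS ω 0 = 0 := by simp [SS]

lemma SS_succ (ω : ℕ → ℕ) (n : ℕ) : SS ω (n + 1) = SS ω n + jump (ω n) :=
  Finset.sum_range_succ _ _

lemma SS_inc (ω : ℕ → ℕ) (n : ℕ) : SS ω n + 1 ≤ SS ω (n + 1) := by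
  rw [SS_succ]; linarith [one_le_jump (ω n)]

lemma le_SS (ω : ℕ → ℕ) (n : ℕ) : (n : ℤ) ≤ SS ω n := le_S (SS_zero ω) (SS_inc ω) n

lemma SS_nonneg (ω : ℕ → ℕ) (n : ℕ) : 0 ≤ SS ω n := (Int.natCast_nonneg n).trans (le_SS ω n)

lemma walk_eq (d n : ℕ) (ω : ℕ → ℕ) : walk (step d) n ω = dg d (SS ω n) := by
  funext c; simp [walk, step, dg, SS]

lemma measurable_step (d i : ℕ) : Measurable (step d i) :=
  (Measurable.of_discrete (f := fun g => dg d (jump g))).comp (measurable_pi_apply i)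

lemma indep_step (d : ℕ) : iIndepFun (step d) PP :=
  iIndepFun_infinitePi (X := fun _ g => dg d (jump g)) fun _ => Measurable.of_discrete

lemma ident_step (d i : ℕ) : IdentDistrib (step d i) (step d 0) PP PP := by
  have h : IdentDistrib (fun ω : ℕ → ℕ => ω i) (fun ω : ℕ → ℕ => ω 0) PP PP :=
    ⟨(measurable_pi_apply i).aemeasurable, (measurable_pi_apply 0).aemeasurable, by
      rw [PP, Measure.infinitePi_map_eval, Measure.infinitePi_map_eval]⟩
  exact h.comp (Measurable.of_discrete (f := fun g => dg d (jump g)))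

lemma PP_small (N t : ℕ) : PP {ω | ∀ i < N, ω i < t} = (1 - 2⁻¹ ^ t) ^ N := by
  have : {ω : ℕ → ℕ | ∀ i < N, ω i < t} = Set.pi (Finset.range N : Finset ℕ) fun _ => Iio t := by
    ext ω; simp
  rw [this, PP, Measure.infinitePi_pi _ fun _ _ => measurableSet_Iio]
  simp [geo_Iio]

lemma PP_big (N t : ℕ) : PP {ω | ∃ i < N, t ≤ ω i} ≤ N * 2⁻¹ ^ t := by
  have : {ω : ℕ → ℕ | ∃ i < N, t ≤ ω i} =
      ⋃ i ∈ Finset.range N, (fun ω : ℕ → ℕ => ω i) ⁻¹' Ici t := by
    ext ω; simp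
  rw [this]
  refine (measure_biUnion_finset_le _ _).trans (le_of_eq ?_)
  have h : ∀ i, PP ((fun ω : ℕ → ℕ => ω i) ⁻¹' Ici t) = 2⁻¹ ^ t := fun i => by
    rw [← geo_Ici]
    exact (measurePreserving_eval_infinitePi (fun _ : ℕ => geo) i).measure_preimage
      measurableSet_Ici.nullMeasurableSet
  simp [h]

lemma half_pow_le_one (t : ℕ) : (2⁻¹ : ℝ≥0∞) ^ t ≤ 1 := pow_le_one₀ zero_le (by norm_num)

lemma tsum_small (t : ℕ) : ∑' i : ℕ, ((1 : ℝ≥0∞) - 2⁻¹ ^ t) ^ i = 2 ^ t := by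
  rw [ENNReal.tsum_geometric, ENNReal.sub_sub_cancel (by simp) (half_pow_le_one t),
    ← ENNReal.inv_pow, inv_inv]

lemma two_pow_mul (a b : ℕ) : (2 : ℝ≥0∞) ^ a * 2⁻¹ ^ (a + b) = 2⁻¹ ^ b := by
  rw [pow_add, ← mul_assoc, ← mul_pow, ENNReal.mul_inv_cancel (by simp) (by simp)]; simp

lemma small_pow_le (t : ℕ) : ((1 : ℝ≥0∞) - 2⁻¹ ^ t) ^ (2 ^ (t + t)) ≤ 2⁻¹ ^ t := by
  set x : ℝ≥0∞ := 1 - 2⁻¹ ^ t with hx
  have h1 : (2 : ℝ≥0∞) ^ (t + t) * x ^ (2 ^ (t + t)) ≤ 2 ^ t := by
    rw [← tsum_small t]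
    refine le_trans ?_ (ENNReal.sum_le_tsum (Finset.range (2 ^ (t + t))))
    have := Finset.card_nsmul_le_sum (Finset.range (2 ^ (t + t))) (fun i => x ^ i)
      (x ^ (2 ^ (t + t))) fun i hi =>
        pow_le_pow_of_le_one zero_le tsub_le_self (Finset.mem_range.mp hi).le
    simpa using this
  calc x ^ (2 ^ (t + t)) = 2⁻¹ ^ (t + t) * (2 ^ (t + t) * x ^ (2 ^ (t + t))) := by
        rw [← mul_assoc, mul_comm (2⁻¹ ^ (t + t)), ← add_zero (t + t), add_zero (t + t)]
        have := two_pow_mul (t + t) 0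
        rw [add_zero] at this
        rw [this]; simp
    _ ≤ 2⁻¹ ^ (t + t) * 2 ^ t := by gcongr
    _ = 2⁻¹ ^ t := by rw [mul_comm, two_pow_mul]

lemma occ_lt_top {d : ℕ} (hd : 1 ≤ d) (A : Set (Fin d → ℤ)) (N : ℕ)
    (h : ∀ x ∈ A, x ⟨0, hd⟩ < N) : occ PP (step d) A < ⊤ := by
  unfold occ
  rw [tsum_eq_sum (s := Finset.range N)]
  · exact ENNReal.sum_lt_top.mpr fun i _ => measure_lt_top _ _
  · intro i hi
    have : {ω | walk (step d) i ω ∈ A} = ∅ := by
      ext ω
      simp only [mem_ofPred_eq, mem_empty_iff_false, iff_false, walk_eq]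
      intro hA
      have h1 := h _ hA
      have h2 := le_SS ω i
      simp only [dg] at h1
      simp only [Finset.mem_range, not_lt] at hi
      have : (N : ℤ) ≤ i := by exact_mod_cast hi
      linarith
    rw [this, measure_empty]

lemma transient {d : ℕ} (hd : 1 ≤ d) (x : Fin d → ℤ) : occ PP (step d) {x} < ⊤ := by
  apply occ_lt_top hd _ ((x ⟨0, hd⟩).toNat + 1)
  rintro y rfl
  have := Int.self_le_toNat (y ⟨0, hd⟩)
  push_cast; linarith

lemma occ_box_lt_top {d : ℕ} (hd : 1 ≤ d) (n : ℕ) : occ PP (step d) (box d n) < ⊤ := by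
  apply occ_lt_top hd _ (2 ^ n)
  intro y hy
  push_cast
  exact (hy ⟨0, hd⟩).2

lemma one_le_occ (d n : ℕ) : 1 ≤ occ PP (step d) (box d n) := by
  refine le_trans ?_ (ENNReal.le_tsum 0)
  have : {ω | walk (step d) 0 ω ∈ box d n} = univ := by
    ext ω
    simp [walk, box]
  rw [this, measure_univ]

lemma occ_box_le {d : ℕ} (hd : 1 ≤ d) (j : ℕ) : occ PP (step d) (box d (mm j)) ≤ 2 ^ tt j := by
  rw [← tsum_small]
  refine ENNReal.tsum_le_tsum fun i => ?_
  rw [← PP_small]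
  refine measure_mono fun ω hω l hl => ?_
  simp only [mem_ofPred_eq, walk_eq, dg_mem_box hd] at hω
  by_contra hcon
  have h1 := jump_ge (not_lt.mp hcon)
  have hmono : Monotone (SS ω) := monotone_nat_of_le_succ fun i => by linarith [SS_inc ω i]
  have h2 := hmono (show l + 1 ≤ i by omega)
  rw [SS_succ] at h2
  linarith [SS_nonneg ω l, hω.2]

lemma tendsto_mm : Tendsto mm atTop atTop :=
  tendsto_atTop_mono (fun j => Nat.le_mul_of_pos_right j (tt_pos j)) tendsto_id

lemma freq_small {u : ℕ → ℝ} (h : ∀ᶠ j in atTop, u (mm j) ≤ (2 * tt j : ℝ)) (ε : ℝ) (hε : 0 < ε) :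
    ∃ᶠ n : ℕ in atTop, u n / n ≤ ε := by
  apply tendsto_mm.frequently
  apply Eventually.frequently
  obtain ⟨J, hJ⟩ := exists_nat_gt (2 / ε)
  filter_upwards [h, eventually_ge_atTop J, eventually_ge_atTop 1] with j h1 h2 h3
  have ht : (0 : ℝ) < tt j := by exact_mod_cast tt_pos j
  have hj : (0 : ℝ) < j := by exact_mod_cast h3
  have hJj : (J : ℝ) ≤ j := by exact_mod_cast h2
  have h4 : 2 ≤ ε * j := by
    rw [div_lt_iff₀ hε] at hJ; nlinarith
  rw [div_le_iff₀ (by unfold mm; push_cast; positivity)]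
  unfold mm at h1 ⊢
  push_cast
  nlinarith

lemma logb_le {x : ℝ} {t : ℕ} (h0 : 0 ≤ x) (h : x ≤ 2 ^ t) : Real.logb 2 x ≤ t := by
  rcases h0.eq_or_lt with rfl | hx
  · simp
  · rw [Real.logb_le_iff_le_rpow (by norm_num) hx, Real.rpow_natCast]; exact h

lemma index_eq {d : ℕ} (hd : 1 ≤ d) : index PP (step d) = 0 := by
  apply liminf_eq_zero
  · intro n
    apply div_nonneg _ (Nat.cast_nonneg _)
    apply Real.logb_nonneg (by norm_num)
    simpa using ENNReal.toReal_mono (occ_box_lt_top hd n).ne (one_le_occ d n)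
  · apply freq_small (u := fun n => Real.logb 2 (occ PP (step d) (box d n)).toReal)
    refine Eventually.of_forall fun j => ?_
    have h1 := ENNReal.toReal_mono (by simp) (occ_box_le hd j)
    have h2 := logb_le ENNReal.toReal_nonneg (t := tt j) (by simpa using h1)
    have ht : (0 : ℝ) ≤ tt j := Nat.cast_nonneg _
    linarith

lemma tsum_half_ne : ∑' j : ℕ, (2⁻¹ : ℝ≥0∞) ^ j ≠ ⊤ := by
  rw [ENNReal.tsum_geometric]; simp

lemma ae_big : ∀ᵐ ω ∂PP, ∀ᶠ j in atTop, ∃ i < 2 ^ (tt j + tt j), tt j ≤ ω i := by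
  have := ae_eventually_notMem (μ := PP) (s := fun j => {ω | ∀ i < 2 ^ (tt j + tt j), ω i < tt j})
    (ne_top_of_le_ne_top tsum_half_ne (ENNReal.tsum_le_tsum fun j => by
      rw [PP_small]
      exact (small_pow_le _).trans (pow_le_pow_of_le_one zero_le (by norm_num) (le_tt j))))
  filter_upwards [this] with ω hω
  filter_upwards [hω] with j hj
  simpa using hj

lemma ae_small : ∀ᵐ ω ∂PP, ∀ᶠ j in atTop, ∀ i < 2 ^ (tt (j + 1) - j), ω i < tt (j + 1) := by
  have := ae_eventually_notMem (μ := PP)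
    (s := fun j => {ω | ∃ i < 2 ^ (tt (j + 1) - j), tt (j + 1) ≤ ω i})
    (ne_top_of_le_ne_top tsum_half_ne (ENNReal.tsum_le_tsum fun j => by
      refine (PP_big _ _).trans (le_of_eq ?_)
      have h1 : j ≤ tt (j + 1) := (Nat.le_succ j).trans (le_tt _)
      have h2 := two_pow_mul (tt (j + 1) - j) j
      rw [Nat.sub_add_cancel h1] at h2
      rw [← h2]; push_cast; rfl))
  filter_upwards [this] with ω hω
  filter_upwards [hω] with j hj
  simpa using hj

lemma range_eq (d : ℕ) (ω : ℕ → ℕ) :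
    (range fun n => walk (step d) n ω) = range fun n => dg d (SS ω n) := by
  simp only [walk_eq]

lemma ae_dimM {d : ℕ} (hd : 1 ≤ d) :
    ∀ᵐ ω ∂PP, lowerDimM (range fun n => walk (step d) n ω) = 0 := by
  filter_upwards [ae_big] with ω hω
  rw [range_eq]
  apply liminf_eq_zero
  · intro n
    apply div_nonneg _ (Nat.cast_nonneg _)
    rcases Nat.eq_zero_or_pos ((range fun n => dg d (SS ω n)) ∩ box d n).ncard with h | h
    · simp [h]
    · exact Real.logb_nonneg (by norm_num) (by exact_mod_cast h)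
  · apply freq_small (u := fun n => Real.logb 2 ((range fun n => dg d (SS ω n)) ∩ box d n).ncard)
    filter_upwards [hω] with j hj
    obtain ⟨i, hi1, hi2⟩ := hj
    have h1 := ncard_le hd (SS_inc ω) (SS_nonneg ω) (n := mm j) hi1
      (by rw [SS_succ]; linarith [jump_ge hi2])
    have h2 := logb_le (Nat.cast_nonneg _) (t := tt j + tt j) (by exact_mod_cast h1)
    push_cast at h2
    linarith

lemma kk_ge (j : ℕ) : (j - 1) * mm j ≤ tt (j + 1) - j := by
  have h1 := sq_le_tt j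
  have h2 := tt_pos j
  rw [tt_succ, mm]
  apply Nat.le_sub_of_add_le
  rcases j with _ | j
  · simp
  · simp only [Nat.add_sub_cancel]
    have h3 : (j + 1) * (j + 1) * tt (j + 1) ≤ tt (j + 1) * tt (j + 1) :=
      Nat.mul_le_mul_right _ h1
    have h4 : (j + 1) * 1 ≤ (j + 1) * tt (j + 1) := Nat.mul_le_mul_left _ h2
    nlinarith

lemma ae_dimH {d : ℕ} (hd : 1 ≤ d) :
    ∀ᵐ ω ∂PP, lowerDimH (range fun n => walk (step d) n ω) = 1 := by
  filter_upwards [ae_small] with ω hω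
  rw [range_eq]
  refine lowerDimH_eq_one (fun α hα => content_tendsto hd (SS_nonneg ω) hα) fun α h0 h1 => ?_
  have hmm : ∀ j, j ≤ mm j := fun j => Nat.le_mul_of_pos_right j (tt_pos j)
  have hk : Tendsto (fun j => tt (j + 1) - j) atTop atTop := by
    refine tendsto_atTop_mono' atTop ?_ tendsto_id
    filter_upwards [eventually_ge_atTop 2] with j hj
    have h2 := kk_ge j
    have h3 : 1 * mm j ≤ (j - 1) * mm j := Nat.mul_le_mul_right _ (by omega)
    have := hmm j
    simp only [id]; omega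
  apply hk.frequently
  apply Eventually.frequently
  obtain ⟨J, hJ⟩ := exists_nat_gt (1 / (1 - α))
  filter_upwards [hω, eventually_ge_atTop (J + 1), eventually_ge_atTop 3] with j hj h2 h3
  have h4 := kk_ge j
  apply content_ge hd (SS_zero ω) (SS_inc ω) (m := mm j) _ _ h0 h1.le
  · have h5 : J * mm j ≤ tt (j + 1) - j := (Nat.mul_le_mul_right _ (by omega)).trans h4
    have h6 : (J : ℝ) * mm j ≤ (tt (j + 1) - j : ℕ) := by exact_mod_cast h5
    rw [div_lt_iff₀ (by linarith)] at hJ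
    have h7 : (0 : ℝ) ≤ mm j := Nat.cast_nonneg _
    nlinarith
  · intro i hi
    rw [SS_succ]
    linarith [jump_le (hj i hi)]
  · have h5 : 2 * mm j ≤ (j - 1) * mm j := Nat.mul_le_mul_right _ (by omega)
    have := hmm j
    omega

end Pool.Agent.Lib.MP_fbfbfd_pr
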